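import Mathlib

/-!
# A homeomorphism of `ℝ^n`, `n ≥ 2`, all of whose images of nonconstant rectifiable curves have
infinite length
-/

set_option autoImplicit false

open Set Filter Topology
open scoped ENNReal

namespace Pool.Agent.K3h28.Sponge

/-- the shear `x_j ↦ x_j + A cos (π N x_i)` -/
noncomputable def shear {n : ℕ} (i j : Fin n) (A : ℝ) (N : ℕ) (x : Fin n → ℝ) : Fin n → ℝ :=
  Function.update x j (x j + A * Real.cos (Real.pi * N * x i))

lemma shear_self {n : ℕ} (i j : Fin n) (A : ℝ) (N : ℕ) (x : Fin n → ℝ) :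
    shear i j A N x j = x j + A * Real.cos (Real.pi * N * x i) := by
  simp [shear]

lemma shear_of_ne {n : ℕ} (i j l : Fin n) (h : l ≠ j) (A : ℝ) (N : ℕ) (x : Fin n → ℝ) :
    shear i j A N x l = x l := by
  simp [shear, h]

lemma shear_neg {n : ℕ} (i j : Fin n) (h : i ≠ j) (A : ℝ) (N : ℕ) (x : Fin n → ℝ) :
    shear i j (-A) N (shear i j A N x) = x := by
  funext l
  by_cases hl : l = j
  · subst hl
    rw [shear_self, shear_self, shear_of_ne i l i h]
    ring
  · rw [shear_of_ne _ _ _ hl, shear_of_ne _ _ _ hl]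

lemma shear_neg' {n : ℕ} (i j : Fin n) (h : i ≠ j) (A : ℝ) (N : ℕ) (x : Fin n → ℝ) :
    shear i j A N (shear i j (-A) N x) = x := by
  have := shear_neg i j h (-A) N x
  rwa [neg_neg] at this

lemma dist_shear_le {n : ℕ} (i j : Fin n) (A : ℝ) (hA : 0 ≤ |A|) (N : ℕ) (x : Fin n → ℝ) :
    dist (shear i j A N x) x ≤ |A| := by
  rw [dist_pi_le_iff hA]
  intro l
  by_cases hl : l = j
  · subst hl
    rw [shear_self, Real.dist_eq, add_sub_cancel_left, abs_mul]
    calc |A| * |Real.cos (Real.pi * N * x i)| ≤ |A| * 1 :=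
          mul_le_mul_of_nonneg_left (Real.abs_cos_le_one _) (abs_nonneg _)
      _ = |A| := mul_one _
  · rw [shear_of_ne _ _ _ hl, dist_self]
    exact hA

lemma abs_cos_sub_cos_le (a b : ℝ) : |Real.cos a - Real.cos b| ≤ |a - b| := by
  have h := Convex.norm_image_sub_le_of_norm_deriv_le (𝕜 := ℝ) (f := Real.cos) (C := 1)
    (s := univ) (x := b) (y := a) (fun x _ => Real.differentiableAt_cos)
    (fun x _ => by rw [Real.deriv_cos, norm_neg]; exact Real.abs_sin_le_one x)
    convex_univ (mem_univ _) (mem_univ _)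
  simpa [Real.norm_eq_abs] using h

lemma shear_lip {n : ℕ} (i j : Fin n) (A : ℝ) (N : ℕ) (x y : Fin n → ℝ) :
    dist (shear i j A N x) (shear i j A N y) ≤ (1 + Real.pi * |A| * N) * dist x y := by
  have hd : 0 ≤ dist x y := dist_nonneg
  have h1 : 1 ≤ 1 + Real.pi * |A| * N := by
    have : 0 ≤ Real.pi * |A| * N := by positivity
    linarith
  rw [dist_pi_le_iff (by positivity)]
  intro l
  have hl' : ∀ l, |x l - y l| ≤ dist x y := fun l => by
    have := dist_le_pi_dist x y l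
    rwa [Real.dist_eq] at this
  by_cases hl : l = j
  · subst hl
    rw [shear_self, shear_self, Real.dist_eq]
    have e : x l + A * Real.cos (Real.pi * N * x i) - (y l + A * Real.cos (Real.pi * N * y i)) =
      (x l - y l) + A * (Real.cos (Real.pi * N * x i) - Real.cos (Real.pi * N * y i)) := by ring
    rw [e]
    calc _ ≤ |x l - y l| + |A * (Real.cos (Real.pi * N * x i) - Real.cos (Real.pi * N * y i))| :=
          abs_add_le _ _
      _ ≤ dist x y + |A| * (Real.pi * N * dist x y) := by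
          apply add_le_add (hl' l)
          rw [abs_mul]
          apply mul_le_mul_of_nonneg_left _ (abs_nonneg _)
          refine (abs_cos_sub_cos_le _ _).trans ?_
          rw [← mul_sub, abs_mul, abs_of_nonneg (by positivity : 0 ≤ Real.pi * (N : ℝ))]
          exact mul_le_mul_of_nonneg_left (hl' i) (by positivity)
      _ = (1 + Real.pi * |A| * N) * dist x y := by ring
  · rw [shear_of_ne _ _ _ hl, shear_of_ne _ _ _ hl, Real.dist_eq]
    calc |x l - y l| ≤ 1 * dist x y := by rw [one_mul]; exact hl' l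
      _ ≤ _ := mul_le_mul_of_nonneg_right h1 hd

/-! ### the parameters -/

/-- amplitudes -/
noncomputable def Af (k : ℕ) (q : ℝ) : ℝ := (1 / 2) ^ (k + 1) / q

/-- frequencies -/
noncomputable def Nf (k : ℕ) (q : ℝ) : ℕ := ⌈(k + 1) * q / Af k q⌉₊

/-- Lipschitz constants -/
noncomputable def Q : ℕ → ℝ
  | 0 => 1
  | k + 1 => Q k * ((1 + Real.pi * Af k (Q k) * Nf k (Q k)) * Nf k (Q k))

lemma Af_pos (k : ℕ) {q : ℝ} (hq : 1 ≤ q) : 0 < Af k q := by
  unfold Af; positivity

lemma one_le_Nf (k : ℕ) {q : ℝ} (hq : 1 ≤ q) : 1 ≤ Nf k q := by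
  unfold Nf
  rw [Nat.one_le_ceil_iff]
  have := Af_pos k hq
  positivity

lemma one_le_Q (k : ℕ) : 1 ≤ Q k := by
  induction k with
  | zero => exact le_rfl
  | succ k ih =>
    rw [Q]
    have h1 : (1 : ℝ) ≤ Nf k (Q k) := by exact_mod_cast one_le_Nf k ih
    have h2 := Af_pos k ih
    have h3 : 1 ≤ 1 + Real.pi * Af k (Q k) * Nf k (Q k) := by
      have : 0 ≤ Real.pi * Af k (Q k) * Nf k (Q k) := by positivity
      linarith
    exact one_le_mul_of_one_le_of_one_le ih (one_le_mul_of_one_le_of_one_le h3 h1)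

/-- amplitude number `k` -/
noncomputable def A (k : ℕ) : ℝ := Af k (Q k)

/-- frequency number `k` -/
noncomputable def N (k : ℕ) : ℕ := Nf k (Q k)

/-- Lipschitz constant of the shear number `k` -/
noncomputable def H (k : ℕ) : ℝ := 1 + Real.pi * A k * N k

lemma A_pos (k : ℕ) : 0 < A k := Af_pos k (one_le_Q k)

lemma one_le_N (k : ℕ) : 1 ≤ N k := one_le_Nf k (one_le_Q k)

lemma one_le_N' (k : ℕ) : (1 : ℝ) ≤ N k := by exact_mod_cast one_le_N k

lemma one_le_H (k : ℕ) : 1 ≤ H k := by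
  unfold H
  have h2 := A_pos k
  have : 0 ≤ Real.pi * A k * N k := by positivity
  linarith

lemma Q_succ (k : ℕ) : Q (k + 1) = Q k * (H k * N k) := rfl

lemma A_eq (k : ℕ) : A k = (1 / 2) ^ (k + 1) / Q k := rfl

lemma Q_mul_A (k : ℕ) : Q k * A k = (1 / 2) ^ (k + 1) := by
  have := one_le_Q k
  rw [A_eq]
  field_simp

lemma le_A_mul_N (k : ℕ) : (k + 1) * Q k ≤ A k * N k := by
  have h1 : (k + 1) * Q k / A k ≤ N k := Nat.le_ceil _
  rw [div_le_iff₀ (A_pos k)] at h1
  linarith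

lemma Q_mono : Monotone Q := by
  apply monotone_nat_of_le_succ
  intro k
  rw [Q_succ]
  have h1 := one_le_Q k
  have h2 := one_le_H k
  have h3 := one_le_N' k
  have h4 : 1 ≤ H k * N k := one_le_mul_of_one_le_of_one_le h2 h3
  nlinarith

lemma A_le_one (k : ℕ) : A k ≤ 1 := by
  have h1 := one_le_Q k
  have h2 := A_pos k
  have h3 := Q_mul_A k
  have h4 : ((1 : ℝ) / 2) ^ (k + 1) ≤ 1 := pow_le_one₀ (by norm_num) (by norm_num)
  nlinarith

/-! ### the sequence of maps -/

variable {m : ℕ}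

/-- source coordinate of the shear number `k` -/
def io (m k : ℕ) : Fin (m + 2) := Fin.ofNat (m + 2) k

lemma io_ne (m k : ℕ) : io m k ≠ io m k + 1 := by
  intro h
  have h1 : (1 : Fin (m + 2)) = 0 := by
    have := add_left_cancel (a := io m k) (b := 1) (c := 0) (by rw [add_zero]; exact h.symm)
    exact this
  have h2 := congrArg Fin.val h1
  simp at h2

/-- the shear number `k` -/
noncomputable def hs (m k : ℕ) (x : Fin (m + 2) → ℝ) : Fin (m + 2) → ℝ :=
  shear (io m k) (io m k + 1) (A k) (N k) x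

/-- the inverse of the shear number `k` -/
noncomputable def hi (m k : ℕ) (x : Fin (m + 2) → ℝ) : Fin (m + 2) → ℝ :=
  shear (io m k) (io m k + 1) (-A k) (N k) x

lemma hi_hs (k : ℕ) (x : Fin (m + 2) → ℝ) : hi m k (hs m k x) = x := shear_neg _ _ (io_ne m k) _ _ _

lemma hs_hi (k : ℕ) (x : Fin (m + 2) → ℝ) : hs m k (hi m k x) = x :=
  shear_neg' _ _ (io_ne m k) _ _ _

lemma dist_hs (k : ℕ) (x : Fin (m + 2) → ℝ) : dist (hs m k x) x ≤ A k := by
  have := dist_shear_le (io m k) (io m k + 1) (A k) (abs_nonneg _) (N k) x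
  rwa [abs_of_pos (A_pos k)] at this

lemma dist_hi (k : ℕ) (x : Fin (m + 2) → ℝ) : dist (hi m k x) x ≤ A k := by
  have := dist_shear_le (io m k) (io m k + 1) (-A k) (abs_nonneg _) (N k) x
  rwa [abs_neg, abs_of_pos (A_pos k)] at this

lemma hs_lip (k : ℕ) (x y : Fin (m + 2) → ℝ) : dist (hs m k x) (hs m k y) ≤ H k * dist x y := by
  have := shear_lip (io m k) (io m k + 1) (A k) (N k) x y
  rwa [abs_of_pos (A_pos k)] at this

lemma hi_lip (k : ℕ) (x y : Fin (m + 2) → ℝ) : dist (hi m k x) (hi m k y) ≤ H k * dist x y := by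
  have := shear_lip (io m k) (io m k + 1) (-A k) (N k) x y
  rwa [abs_neg, abs_of_pos (A_pos k)] at this

/-- the composition of the first `k` shears, the last one applied first -/
noncomputable def fs (m : ℕ) : ℕ → (Fin (m + 2) → ℝ) → (Fin (m + 2) → ℝ)
  | 0 => id
  | k + 1 => fun x => fs m k (hs m k x)

/-- the inverse of `fs m k` -/
noncomputable def gs (m : ℕ) : ℕ → (Fin (m + 2) → ℝ) → (Fin (m + 2) → ℝ)
  | 0 => id
  | k + 1 => fun x => hi m k (gs m k x)

lemma gs_fs (k : ℕ) (x : Fin (m + 2) → ℝ) : gs m k (fs m k x) = x := by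
  induction k generalizing x with
  | zero => rfl
  | succ k ih =>
    show hi m k (gs m k (fs m k (hs m k x))) = x
    rw [ih, hi_hs]

lemma Q_succ_ge (k : ℕ) : Q k * H k ≤ Q (k + 1) := by
  rw [Q_succ]
  have h1 := one_le_Q k
  have h2 := one_le_H k
  have h3 := one_le_N' k
  have h4 : H k ≤ H k * N k := by nlinarith
  exact mul_le_mul_of_nonneg_left h4 (by linarith)

lemma fs_lip (k : ℕ) (x y : Fin (m + 2) → ℝ) : dist (fs m k x) (fs m k y) ≤ Q k * dist x y := by
  induction k generalizing x y with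
  | zero => simp [fs, Q]
  | succ k ih =>
    rw [fs]
    have h1 := one_le_Q k
    calc _ ≤ Q k * dist (hs m k x) (hs m k y) := ih _ _
      _ ≤ Q k * (H k * dist x y) := mul_le_mul_of_nonneg_left (hs_lip k x y) (by linarith)
      _ = Q k * H k * dist x y := by ring
      _ ≤ _ := mul_le_mul_of_nonneg_right (Q_succ_ge k) dist_nonneg

lemma gs_lip (k : ℕ) (x y : Fin (m + 2) → ℝ) : dist (gs m k x) (gs m k y) ≤ Q k * dist x y := by
  induction k generalizing x y with
  | zero => simp [gs, Q]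
  | succ k ih =>
    rw [gs]
    have h1 := one_le_Q k
    have h2 := one_le_H k
    calc _ ≤ H k * dist (gs m k x) (gs m k y) := hi_lip k _ _
      _ ≤ H k * (Q k * dist x y) := mul_le_mul_of_nonneg_left (ih x y) (by linarith)
      _ = Q k * H k * dist x y := by ring
      _ ≤ _ := mul_le_mul_of_nonneg_right (Q_succ_ge k) dist_nonneg

lemma dist_fs_succ (k : ℕ) (x : Fin (m + 2) → ℝ) :
    dist (fs m k x) (fs m (k + 1) x) ≤ 1 / 2 / 2 ^ k := by
  rw [fs, dist_comm]
  have h1 := one_le_Q k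
  calc _ ≤ Q k * dist (hs m k x) x := fs_lip k _ _
    _ ≤ Q k * A k := mul_le_mul_of_nonneg_left (dist_hs k x) (by linarith)
    _ = (1 / 2) ^ (k + 1) := Q_mul_A k
    _ = _ := by rw [pow_succ, one_div, inv_pow]; field_simp

lemma dist_gs_succ (k l : ℕ) (x : Fin (m + 2) → ℝ) :
    dist (gs m (k + l) x) (gs m (k + l + 1) x) ≤ (1 / 2) ^ k / Q k / 2 / 2 ^ l := by
  rw [gs, dist_comm]
  have h1 := one_le_Q k
  have h2 := Q_mono (Nat.le_add_right k l)
  calc _ ≤ A (k + l) := dist_hi _ _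
    _ = (1 / 2) ^ (k + l + 1) / Q (k + l) := A_eq _
    _ ≤ (1 / 2) ^ (k + l + 1) / Q k := by
        apply div_le_div_of_nonneg_left (by positivity) (by linarith) h2
    _ = _ := by
        rw [pow_succ, pow_add, one_div, inv_pow, inv_pow]
        field_simp

/-- the limit of the maps `fs m k` -/
noncomputable def F (m : ℕ) (x : Fin (m + 2) → ℝ) : Fin (m + 2) → ℝ :=
  limUnder atTop fun k => fs m k x

/-- the limit of the maps `gs m k` -/
noncomputable def G (m : ℕ) (x : Fin (m + 2) → ℝ) : Fin (m + 2) → ℝ :=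
  limUnder atTop fun k => gs m k x

lemma tendsto_fs (x : Fin (m + 2) → ℝ) : Tendsto (fun k => fs m k x) atTop (𝓝 (F m x)) :=
  (cauchySeq_of_le_geometric_two (C := 1) (fun k => dist_fs_succ k x)).tendsto_limUnder

lemma tendsto_gs (x : Fin (m + 2) → ℝ) : Tendsto (fun k => gs m k x) atTop (𝓝 (G m x)) := by
  refine (cauchySeq_of_le_geometric_two (C := 1) (fun k => ?_)).tendsto_limUnder
  have := dist_gs_succ 0 k x
  simpa [Q] using this

lemma dist_fs_F (k : ℕ) (x : Fin (m + 2) → ℝ) : dist (fs m k x) (F m x) ≤ 1 / 2 ^ k :=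
  dist_le_of_le_geometric_two_of_tendsto (C := 1) (fun k => dist_fs_succ k x) (tendsto_fs x) k

lemma dist_gs_G (k : ℕ) (x : Fin (m + 2) → ℝ) : dist (gs m k x) (G m x) ≤ (1 / 2) ^ k / Q k := by
  have h := dist_le_of_le_geometric_two_of_tendsto (C := (1 / 2) ^ k / Q k)
    (f := fun l => gs m (k + l) x) (fun l => dist_gs_succ k l x)
    ((tendsto_gs x).comp (tendsto_add_atTop_nat k |>.congr fun l => by rw [add_comm])) 0
  simpa using h

lemma fs_cont (k : ℕ) : Continuous (fs m k) :=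
  LipschitzWith.continuous (K := (Q k).toNNReal) <| LipschitzWith.of_dist_le_mul fun x y => by
    rw [Real.coe_toNNReal _ (by linarith [one_le_Q k])]; exact fs_lip k x y

lemma gs_cont (k : ℕ) : Continuous (gs m k) :=
  LipschitzWith.continuous (K := (Q k).toNNReal) <| LipschitzWith.of_dist_le_mul fun x y => by
    rw [Real.coe_toNNReal _ (by linarith [one_le_Q k])]; exact gs_lip k x y

lemma tendsto_half : Tendsto (fun k : ℕ => (1 : ℝ) / 2 ^ k) atTop (𝓝 0) := by
  have := tendsto_pow_atTop_nhds_zero_of_lt_one (r := (1 : ℝ) / 2) (by norm_num) (by norm_num)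
  refine this.congr fun k => ?_
  rw [one_div, inv_pow, one_div]

lemma F_cont : Continuous (F m) := by
  have : TendstoUniformly (fs m) (F m) atTop := by
    rw [Metric.tendstoUniformly_iff]
    intro ε hε
    filter_upwards [tendsto_half.eventually (gt_mem_nhds hε)] with k hk x
    rw [dist_comm]
    exact (dist_fs_F k x).trans_lt hk
  exact this.continuous (Frequently.of_forall fs_cont)

lemma half_div_le (k : ℕ) : (1 / 2 : ℝ) ^ k / Q k ≤ 1 / 2 ^ k := by
  rw [one_div, inv_pow, ← one_div]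
  exact div_le_self (by positivity) (one_le_Q k)

lemma G_cont : Continuous (G m) := by
  have : TendstoUniformly (gs m) (G m) atTop := by
    rw [Metric.tendstoUniformly_iff]
    intro ε hε
    filter_upwards [tendsto_half.eventually (gt_mem_nhds hε)] with k hk x
    rw [dist_comm]
    exact ((dist_gs_G k x).trans (half_div_le k)).trans_lt hk
  exact this.continuous (Frequently.of_forall gs_cont)

lemma G_F (x : Fin (m + 2) → ℝ) : G m (F m x) = x := by
  have h1 : Tendsto (fun k => G m (fs m k x)) atTop (𝓝 (G m (F m x))) :=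
    (G_cont.tendsto _).comp (tendsto_fs x)
  have h2 : Tendsto (fun k => G m (fs m k x)) atTop (𝓝 x) := by
    rw [tendsto_iff_dist_tendsto_zero]
    refine squeeze_zero (fun _ => dist_nonneg) (fun k => ?_) tendsto_half
    have h3 := (dist_gs_G k (fs m k x)).trans (half_div_le k)
    rwa [gs_fs, dist_comm] at h3
  exact tendsto_nhds_unique h1 h2

lemma gs_F_near (k : ℕ) (x : Fin (m + 2) → ℝ) :
    dist (gs m k (F m x)) (hs m k x) ≤ (1 / 2) ^ (k + 1) / N k := by
  have h1 : gs m k (F m x) = hs m k (gs m (k + 1) (F m x)) := by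
    rw [gs, hs_hi]
  have h2 := dist_gs_G (k + 1) (F m x)
  rw [G_F] at h2
  have hQ := one_le_Q k
  have hH := one_le_H k
  have hN := one_le_N' k
  rw [h1]
  calc _ ≤ H k * dist (gs m (k + 1) (F m x)) x := hs_lip k _ _
    _ ≤ H k * ((1 / 2) ^ (k + 1) / Q (k + 1)) := mul_le_mul_of_nonneg_left h2 (by linarith)
    _ = (1 / 2) ^ (k + 1) / N k / Q k := by
        rw [Q_succ]
        have : H k ≠ 0 := by positivity
        field_simp
    _ ≤ (1 / 2) ^ (k + 1) / N k := div_le_self (by positivity) hQ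

/-! ### times at which a continuous function takes given values -/

lemma times (u : ℝ → ℝ) (M : ℕ) : ∀ (s₀ s₁ : ℝ), s₀ ≤ s₁ → ContinuousOn u (Icc s₀ s₁) →
    ∀ v : ℕ → ℝ, Monotone v → u s₀ ≤ v 0 → v M ≤ u s₁ →
    ∃ t : ℕ → ℝ, Monotone t ∧ (∀ k, t k ∈ Icc s₀ s₁) ∧ ∀ k ≤ M, u (t k) = v k := by
  induction M with
  | zero =>
    intro s₀ s₁ h hu v hv h0 h1
    obtain ⟨τ, hτ, hτ2⟩ := intermediate_value_Icc h hu ⟨h0, h1⟩
    refine ⟨fun _ => τ, monotone_const, fun _ => hτ, fun k hk => ?_⟩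
    obtain rfl : k = 0 := by omega
    exact hτ2
  | succ M ih =>
    intro s₀ s₁ h hu v hv h0 h1
    obtain ⟨τ, hτ, hτ2⟩ := intermediate_value_Icc h hu ⟨h0.trans (hv (Nat.zero_le _)), h1⟩
    obtain ⟨t, ht1, ht2, ht3⟩ := ih s₀ τ hτ.1 (hu.mono (Icc_subset_Icc_right hτ.2)) v hv h0
      (by rw [hτ2]; exact hv (Nat.le_succ M))
    refine ⟨fun k => if k ≤ M then t k else τ, ?_, ?_, ?_⟩
    · intro a b hab
      show (if a ≤ M then t a else τ) ≤ (if b ≤ M then t b else τ)
      by_cases hb : b ≤ M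
      · rw [if_pos hb, if_pos (hab.trans hb)]; exact ht1 hab
      · rw [if_neg hb]
        by_cases ha : a ≤ M
        · rw [if_pos ha]; exact (ht2 a).2
        · rw [if_neg ha]
    · intro k
      show (if k ≤ M then t k else τ) ∈ Icc s₀ s₁
      by_cases hk : k ≤ M
      · rw [if_pos hk]; exact ⟨(ht2 k).1, (ht2 k).2.trans hτ.2⟩
      · rw [if_neg hk]; exact hτ
    · intro k hk
      show u (if k ≤ M then t k else τ) = v k
      by_cases hk' : k ≤ M
      · rw [if_pos hk']; exact ht3 k hk'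
      · rw [if_neg hk']
        obtain rfl : k = M + 1 := by omega
        exact hτ2

lemma cos_int (c : ℤ) : Real.cos (Real.pi * c) = (-1) ^ c.natAbs := by
  rw [mul_comm, Real.cos_int_mul_pi]
  rcases Int.even_or_odd c with h | h
  · rw [h.neg_one_zpow, (Int.natAbs_even.2 h).neg_one_pow]
  · rw [h.neg_one_zpow, (Int.natAbs_odd.2 h).neg_one_pow]

lemma cos_step (c : ℤ) : |Real.cos (Real.pi * ((c + 1 : ℤ) : ℝ)) - Real.cos (Real.pi * c)| = 2 := by
  rw [mul_comm, Real.cos_int_mul_pi, mul_comm, Real.cos_int_mul_pi]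
  rw [zpow_add_one₀ (by norm_num)]
  rcases Int.even_or_odd c with h | h
  · rw [h.neg_one_zpow]; norm_num
  · rw [h.neg_one_zpow]; norm_num

/-- The images of curves of length at most `L` one of whose coordinates is not constant. -/
lemma var_ge (a b : ℝ) (γ : ℝ → Fin (m + 2) → ℝ) (hγ : ContinuousOn γ (Icc a b))
    (L : ℝ) (hL : eVariationOn γ (Icc a b) ≤ ENNReal.ofReal L) (hL0 : 0 ≤ L)
    (s₀ s₁ : ℝ) (h₀ : s₀ ∈ Icc a b) (h₁ : s₁ ∈ Icc a b) (h01 : s₀ ≤ s₁) (σ : ℝ)
    (hσ : σ = 1 ∨ σ = -1) (k : ℕ) (ρ : ℝ) (hρ : 0 < ρ) (hρ1 : ρ ≤ 1)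
    (hρu : σ * γ s₀ (io m k) + ρ ≤ σ * γ s₁ (io m k)) (hk : 2 / ρ ≤ k + 1) :
    ENNReal.ofReal (2 * ρ * (k + 1) - (L + 5)) ≤ eVariationOn (fun t => F m (γ t)) (Icc a b) := by
  set i := io m k with hi_def
  set j := i + 1 with hj
  have hN := one_le_N' k
  have hNpos : (0 : ℝ) < N k := by linarith
  have hQ := one_le_Q k
  have hA := A_pos k
  have hA1 := A_le_one k
  set α := σ * γ s₀ i with hα
  set c : ℤ := ⌈α * N k⌉ with hc
  have hc1 : α * N k ≤ c := Int.le_ceil _
  have hc2 : (c : ℝ) < α * N k + 1 := Int.ceil_lt_add_one _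
  have hρN : 2 ≤ ρ * N k := by
    have h1 : (k + 1 : ℝ) ≤ N k := by
      have h2 := le_A_mul_N k
      have h3 : (k + 1 : ℝ) * 1 ≤ (k + 1) * Q k := mul_le_mul_of_nonneg_left hQ (by positivity)
      have h4 : A k * N k ≤ 1 * N k := mul_le_mul_of_nonneg_right hA1 (by linarith)
      linarith
    rw [div_le_iff₀ hρ] at hk
    nlinarith
  set M : ℕ := ⌊ρ * N k - 1⌋₊ with hM
  have hM1 : (M : ℝ) ≤ ρ * N k - 1 := Nat.floor_le (by linarith)
  have hM2 : ρ * N k - 1 < M + 1 := Nat.lt_floor_add_one _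
  have hMN : (M : ℝ) ≤ N k := by nlinarith
  set v : ℕ → ℝ := fun l => (c + l) / N k with hv
  have hvmono : Monotone v := by
    intro x y hxy
    have : (x : ℝ) ≤ y := by exact_mod_cast hxy
    show ((c : ℝ) + x) / N k ≤ (c + y) / N k
    gcongr
  have hγc : ∀ l, ContinuousOn (fun t => γ t l) (Icc a b) := fun l =>
    (continuous_apply l).comp_continuousOn hγ
  have hsub : Icc s₀ s₁ ⊆ Icc a b := Icc_subset_Icc h₀.1 h₁.2
  obtain ⟨t, ht1, ht2, ht3⟩ := times (fun t => σ * γ t i) M s₀ s₁ h01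
    (((hγc i).mono hsub).const_mul σ |>.congr fun _ _ => rfl) v hvmono
    (by
      show α ≤ ((c : ℝ) + (0 : ℕ)) / N k
      rw [le_div_iff₀ hNpos]
      simpa using hc1)
    (by
      refine le_trans ?_ hρu
      show ((c : ℝ) + (M : ℕ)) / N k ≤ α + ρ
      rw [div_le_iff₀ hNpos]
      nlinarith)
  -- the values of the cosine
  have hcos : ∀ l ≤ M, Real.cos (Real.pi * N k * γ (t l) i) = Real.cos (Real.pi * ((c + l : ℤ) : ℝ)) := by
    intro l hl
    have h1 := ht3 l hl
    have h2 : σ * γ (t l) i * N k = ((c + l : ℤ) : ℝ) := by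
      have h1' : σ * γ (t l) i = ((c : ℝ) + l) / N k := h1
      rw [h1']
      push_cast
      field_simp
    rcases hσ with h | h
    · rw [← h2, h]; ring_nf
    · rw [← h2, h, ← Real.cos_neg]; ring_nf
  -- pointwise bound
  have key : ∀ l < M, 2 * A k - dist (γ (t (l + 1))) (γ (t l)) - (1 / 2) ^ k / N k ≤
      Q k * dist (F m (γ (t (l + 1)))) (F m (γ (t l))) := by
    intro l hl
    have e1 := gs_F_near k (γ (t (l + 1)))
    have e2 := gs_F_near k (γ (t l))
    have e3 : dist (gs m k (F m (γ (t (l + 1))))) (gs m k (F m (γ (t l)))) ≤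
        Q k * dist (F m (γ (t (l + 1)))) (F m (γ (t l))) := gs_lip k _ _
    have e4 : dist (hs m k (γ (t (l + 1)))) (hs m k (γ (t l))) ≤
        dist (gs m k (F m (γ (t (l + 1))))) (hs m k (γ (t (l + 1)))) +
        dist (gs m k (F m (γ (t (l + 1))))) (gs m k (F m (γ (t l)))) +
        dist (gs m k (F m (γ (t l)))) (hs m k (γ (t l))) := by
      have := dist_triangle4 (hs m k (γ (t (l + 1)))) (gs m k (F m (γ (t (l + 1)))))
        (gs m k (F m (γ (t l)))) (hs m k (γ (t l)))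
      rwa [dist_comm (hs m k (γ (t (l + 1)))) (gs m k (F m (γ (t (l + 1)))))] at this
    have e5 : 2 * A k - dist (γ (t (l + 1))) (γ (t l)) ≤
        dist (hs m k (γ (t (l + 1)))) (hs m k (γ (t l))) := by
      refine le_trans ?_ (dist_le_pi_dist _ _ j)
      have f1 : hs m k (γ (t (l + 1))) j = γ (t (l + 1)) j +
          A k * Real.cos (Real.pi * N k * γ (t (l + 1)) i) := shear_self _ _ _ _ _
      have f2 : hs m k (γ (t l)) j = γ (t l) j +
          A k * Real.cos (Real.pi * N k * γ (t l) i) := shear_self _ _ _ _ _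
      rw [f1, f2, hcos _ (by omega), hcos _ (by omega), Real.dist_eq]
      have f3 : ((c + (l + 1 : ℕ) : ℤ) : ℝ) = (((c + l : ℤ) + 1 : ℤ) : ℝ) := by push_cast; ring
      rw [f3]
      have f4 := cos_step (c + l)
      have f5 := dist_le_pi_dist (γ (t (l + 1))) (γ (t l)) j
      rw [Real.dist_eq] at f5
      set C1 := Real.cos (Real.pi * (((c + l : ℤ) + 1 : ℤ) : ℝ))
      set C2 := Real.cos (Real.pi * ((c + l : ℤ) : ℝ))
      have f6 : |A k * (C1 - C2)| = 2 * A k := by rw [abs_mul, f4, abs_of_pos hA]; ring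
      have f7 : |A k * (C1 - C2)| ≤ |γ (t (l + 1)) j + A k * C1 - (γ (t l) j + A k * C2)| +
          |γ (t (l + 1)) j - γ (t l) j| := by
        have : A k * (C1 - C2) = (γ (t (l + 1)) j + A k * C1 - (γ (t l) j + A k * C2)) -
          (γ (t (l + 1)) j - γ (t l) j) := by ring
        rw [this]
        exact abs_sub _ _
      linarith
    have e6 : (1 / 2 : ℝ) ^ (k + 1) / N k + (1 / 2) ^ (k + 1) / N k = (1 / 2) ^ k / N k := by
      rw [pow_succ]; ring
    linarith
  -- summation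
  have hsum1 : ∑ l ∈ Finset.range M, dist (γ (t (l + 1))) (γ (t l)) ≤ L := by
    have h1 : ∑ l ∈ Finset.range M, edist (γ (t (l + 1))) (γ (t l)) ≤ ENNReal.ofReal L :=
      (eVariationOn.sum_le ht1 fun l => hsub (ht2 l)).trans hL
    simp_rw [edist_dist] at h1
    rw [← ENNReal.ofReal_sum_of_nonneg (fun _ _ => dist_nonneg)] at h1
    exact (ENNReal.ofReal_le_ofReal_iff hL0).1 h1
  have hsum2 : 2 * ρ * (k + 1) - (L + 5) ≤
      ∑ l ∈ Finset.range M, dist (F m (γ (t (l + 1)))) (F m (γ (t l))) := by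
    have h1 : ∑ l ∈ Finset.range M, (2 * A k - dist (γ (t (l + 1))) (γ (t l)) - (1 / 2) ^ k / N k) ≤
        ∑ l ∈ Finset.range M, Q k * dist (F m (γ (t (l + 1)))) (F m (γ (t l))) :=
      Finset.sum_le_sum fun l hl => key l (Finset.mem_range.1 hl)
    rw [Finset.sum_sub_distrib, Finset.sum_sub_distrib, Finset.sum_const, Finset.sum_const,
      Finset.card_range, nsmul_eq_mul, nsmul_eq_mul, ← Finset.mul_sum] at h1
    set S := ∑ l ∈ Finset.range M, dist (F m (γ (t (l + 1)))) (F m (γ (t l)))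
    have h2 : (M : ℝ) * ((1 / 2) ^ k / N k) ≤ 1 := by
      have h3 : ((1 : ℝ) / 2) ^ k ≤ 1 := pow_le_one₀ (by norm_num) (by norm_num)
      have h4 : (M : ℝ) * ((1 / 2) ^ k / N k) = (M / N k) * (1 / 2) ^ k := by ring
      rw [h4]
      have h5 : (M : ℝ) / N k ≤ 1 := by rw [div_le_one hNpos]; exact hMN
      have h6 : (0 : ℝ) ≤ M / N k := by positivity
      have h7 : (0 : ℝ) ≤ (1 / 2) ^ k := by positivity
      nlinarith
    have h3 : 2 * ρ * (k + 1) * Q k - 4 ≤ M * (2 * A k) := by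
      have h4 := le_A_mul_N k
      have h5 : ρ * N k - 2 ≤ M := by linarith
      have h6 : (ρ * N k - 2) * (2 * A k) ≤ M * (2 * A k) :=
        mul_le_mul_of_nonneg_right h5 (by linarith)
      have h7 : ρ * ((k + 1) * Q k) ≤ ρ * (A k * N k) := mul_le_mul_of_nonneg_left h4 hρ.le
      nlinarith
    have h4 : 2 * ρ * (k + 1) * Q k - 4 - L - 1 ≤ Q k * S := by linarith
    have h5 : Q k * (2 * ρ * (k + 1) - (L + 5)) ≤ 2 * ρ * (k + 1) * Q k - 4 - L - 1 := by
      have : 1 * (L + 5) ≤ Q k * (L + 5) := mul_le_mul_of_nonneg_right hQ (by linarith)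
      nlinarith
    have h6 : Q k * (2 * ρ * (k + 1) - (L + 5)) ≤ Q k * S := h5.trans h4
    exact le_of_mul_le_mul_left h6 (by linarith)
  calc ENNReal.ofReal (2 * ρ * (k + 1) - (L + 5))
      ≤ ENNReal.ofReal (∑ l ∈ Finset.range M, dist (F m (γ (t (l + 1)))) (F m (γ (t l)))) :=
        ENNReal.ofReal_le_ofReal hsum2
    _ = ∑ l ∈ Finset.range M, edist (F m (γ (t (l + 1)))) (F m (γ (t l))) := by
        rw [ENNReal.ofReal_sum_of_nonneg (fun _ _ => dist_nonneg)]
        exact Finset.sum_congr rfl fun _ _ => (edist_dist _ _).symm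
    _ ≤ _ := eVariationOn.sum_le (f := fun t => F m (γ t)) ht1 fun l => hsub (ht2 l)

lemma io_eq (i : Fin (m + 2)) (K : ℕ) : io m (i.val + (m + 2) * K) = i := by
  apply Fin.ext
  simp [io, Fin.ofNat, Nat.mod_eq_of_lt i.isLt]

/-- **The images of nonconstant rectifiable curves have infinite length.** -/
theorem var_top (a b : ℝ) (γ : ℝ → Fin (m + 2) → ℝ) (hγ : ContinuousOn γ (Icc a b))
    (hrect : eVariationOn γ (Icc a b) ≠ ∞)
    (hne : ∃ s ∈ Icc a b, ∃ t ∈ Icc a b, γ s ≠ γ t) :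
    eVariationOn (fun t => F m (γ t)) (Icc a b) = ∞ := by
  obtain ⟨s, hs, t, ht, hst⟩ := hne
  obtain ⟨s₀, h₀, s₁, h₁, h01, hne⟩ : ∃ s₀ ∈ Icc a b, ∃ s₁ ∈ Icc a b, s₀ ≤ s₁ ∧ γ s₀ ≠ γ s₁ := by
    rcases le_total s t with h | h
    · exact ⟨s, hs, t, ht, h, hst⟩
    · exact ⟨t, ht, s, hs, h, hst.symm⟩
  obtain ⟨i, hi⟩ := Function.ne_iff.1 hne
  obtain ⟨σ, hσ, hpos⟩ : ∃ σ : ℝ, (σ = 1 ∨ σ = -1) ∧ 0 < σ * γ s₁ i - σ * γ s₀ i := by
    rcases lt_or_gt_of_ne hi with h | h
    · exact ⟨1, Or.inl rfl, by linarith⟩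
    · exact ⟨-1, Or.inr rfl, by linarith⟩
  set ρ := min (σ * γ s₁ i - σ * γ s₀ i) 1 with hρ
  have hρ0 : 0 < ρ := lt_min hpos one_pos
  have hρ1 : ρ ≤ 1 := min_le_right _ _
  have hρ2 : ρ ≤ σ * γ s₁ i - σ * γ s₀ i := min_le_left _ _
  set L := (eVariationOn γ (Icc a b)).toReal with hL
  have hL1 : eVariationOn γ (Icc a b) ≤ ENNReal.ofReal L := by
    rw [hL, ENNReal.ofReal_toReal hrect]
  have hL0 : 0 ≤ L := ENNReal.toReal_nonneg
  apply ENNReal.eq_top_of_forall_nnreal_le
  intro r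
  obtain ⟨K, hK⟩ := exists_nat_ge (max (2 / ρ) ((r + L + 5) / (2 * ρ)))
  set k := i.val + (m + 2) * K with hk
  have hkK : (K : ℝ) ≤ k := by
    have : K ≤ k := by
      rw [hk]
      nlinarith [Nat.zero_le i.val, Nat.zero_le (m * K)]
    exact_mod_cast this
  have h1 := var_ge a b γ hγ L hL1 hL0 s₀ s₁ h₀ h₁ h01 σ hσ k ρ hρ0 hρ1
    (by rw [io_eq]; linarith) (by have := (le_max_left _ _).trans hK; linarith)
  refine le_trans ?_ h1
  have h2 := (le_max_right _ _).trans hK
  rw [div_le_iff₀ (by positivity)] at h2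
  rw [← ENNReal.ofReal_coe_nnreal]
  apply ENNReal.ofReal_le_ofReal
  nlinarith

end Pool.Agent.K3h28.Sponge
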