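import Mathlib
import Pool.Agent.K3h28.Sponge.Wild

/-!
# Length-increasing embeddings into the unit ball
-/

set_option autoImplicit false

open Set Filter Topology MeasureTheory
open scoped ENNReal

namespace Pool.Agent.K3h28.Sponge

/-! ### Dimension one -/

/-- the measure of the part of `W` to the left of `x`, minus one -/
noncomputable def cm (W : Set ℝ) (x : ℝ) : ℝ := (volume (W ∩ Iio x)).toReal - 1

lemma cm_sub {W : Set ℝ} (hW : IsOpen W) (hvol : volume W ≤ 2) {x y : ℝ} (hxy : x ≤ y) :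
    cm W y - cm W x = (volume (W ∩ Ico x y)).toReal := by
  have hfin : ∀ s : Set ℝ, volume (W ∩ s) ≠ ∞ := fun s =>
    ne_top_of_le_ne_top (by norm_num) ((measure_mono inter_subset_left).trans hvol)
  have h1 : W ∩ Iio y = (W ∩ Iio x) ∪ (W ∩ Ico x y) := by
    rw [← inter_union_distrib_left, Iio_union_Ico_eq_Iio hxy]
  have h2 : Disjoint (W ∩ Iio x) (W ∩ Ico x y) := by
    rw [Set.disjoint_left]
    rintro z ⟨_, hz1⟩ ⟨_, hz2⟩
    exact absurd hz2.1 (not_le.2 hz1)
  have h3 := measure_union (μ := volume) h2 (hW.measurableSet.inter measurableSet_Ico)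
  unfold cm
  rw [h1, h3, ENNReal.toReal_add (hfin _) (hfin _)]
  ring

lemma cm_of_subset {W : Set ℝ} (hW : IsOpen W) (hvol : volume W ≤ 2) {x y : ℝ} (hxy : x ≤ y)
    (h : Icc x y ⊆ W) : cm W y - cm W x = y - x := by
  rw [cm_sub hW hvol hxy, inter_eq_self_of_subset_right (Ico_subset_Icc_self.trans h),
    Real.volume_Ico, ENNReal.toReal_ofReal (by linarith)]

lemma cm_of_uIcc {W : Set ℝ} (hW : IsOpen W) (hvol : volume W ≤ 2) {x y : ℝ}
    (h : uIcc x y ⊆ W) : cm W y - cm W x = y - x := by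
  rcases le_total x y with hxy | hxy
  · rw [uIcc_of_le hxy] at h
    exact cm_of_subset hW hvol hxy h
  · rw [uIcc_of_ge hxy] at h
    have := cm_of_subset hW hvol hxy h
    linarith

lemma cm_lip {W : Set ℝ} (hW : IsOpen W) (hvol : volume W ≤ 2) {x y : ℝ} (hxy : x ≤ y) :
    |cm W y - cm W x| ≤ y - x := by
  rw [cm_sub hW hvol hxy, abs_of_nonneg ENNReal.toReal_nonneg]
  have h := measure_mono (μ := volume) (inter_subset_right (s := W) (t := Ico x y))
  rw [Real.volume_Ico] at h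
  have := ENNReal.toReal_mono ENNReal.ofReal_ne_top h
  rwa [ENNReal.toReal_ofReal (by linarith)] at this

lemma cm_cont {W : Set ℝ} (hW : IsOpen W) (hvol : volume W ≤ 2) : Continuous (cm W) := by
  have : LipschitzWith 1 (cm W) := by
    apply LipschitzWith.of_dist_le_mul
    intro x y
    rw [NNReal.coe_one, one_mul, Real.dist_eq, Real.dist_eq]
    rcases le_total x y with h | h
    · rw [abs_sub_comm, abs_sub_comm x y, abs_of_nonneg (a := y - x) (by linarith)]
      exact cm_lip hW hvol h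
    · rw [abs_of_nonneg (a := x - y) (by linarith)]
      exact cm_lip hW hvol h
  exact this.continuous

lemma abs_cm_le {W : Set ℝ} (hvol : volume W ≤ 2) (x : ℝ) : |cm W x| ≤ 1 := by
  have h1 : volume (W ∩ Iio x) ≤ 2 := (measure_mono inter_subset_left).trans hvol
  have h2 := ENNReal.toReal_mono (by norm_num) h1
  have h3 : (2 : ℝ≥0∞).toReal = 2 := by norm_num
  rw [h3] at h2
  have h4 : 0 ≤ (volume (W ∩ Iio x)).toReal := ENNReal.toReal_nonneg
  unfold cm
  rw [abs_le]
  constructor <;> linarith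

lemma cm_lt {W : Set ℝ} (hW : IsOpen W) (hvol : volume W ≤ 2) {x y : ℝ} (hx : x ∈ W)
    (hxy : x < y) : cm W x < cm W y := by
  have h0 := cm_sub hW hvol hxy.le
  have hfin : volume (W ∩ Ico x y) ≠ ∞ :=
    ne_top_of_le_ne_top (by norm_num) ((measure_mono inter_subset_left).trans hvol)
  have h1 : 0 < (volume (W ∩ Ico x y)).toReal := by
    apply ENNReal.toReal_pos _ hfin
    have hopen : IsOpen (W ∩ Iio y) := hW.inter isOpen_Iio
    obtain ⟨r, hr, hball⟩ := Metric.isOpen_iff.1 hopen x ⟨hx, hxy⟩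
    have hsub : Ico x (x + r) ⊆ W ∩ Ico x y := by
      intro z hz
      have : z ∈ W ∩ Iio y := hball (by
        rw [Metric.mem_ball, Real.dist_eq, abs_of_nonneg (by linarith [hz.1])]
        linarith [hz.2])
      exact ⟨this.1, hz.1, this.2⟩
    have h2 : (0 : ℝ≥0∞) < volume (Ico x (x + r)) := by
      rw [Real.volume_Ico, ENNReal.ofReal_pos]; linarith
    exact (h2.trans_le (measure_mono hsub)).ne'
  linarith

lemma cm_embedding {W : Set ℝ} (hW : IsOpen W) (hvol : volume W ≤ 2) :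
    IsEmbedding (fun x : W => cm W x) := by
  refine (IsOpenEmbedding.of_continuous_injective_isOpenMap ((cm_cont hW hvol).comp
    continuous_subtype_val) ?_ ?_).isEmbedding
  · intro x y hxy
    rcases lt_trichotomy (x : ℝ) y with h | h | h
    · exact absurd hxy (cm_lt hW hvol x.2 h).ne
    · exact Subtype.ext h
    · exact absurd hxy (cm_lt hW hvol y.2 h).ne'
  · intro V hV
    rw [Metric.isOpen_iff]
    rintro _ ⟨x, hxV, rfl⟩
    obtain ⟨V', hV', rfl⟩ := hV
    have hopen : IsOpen (V' ∩ W) := hV'.inter hW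
    obtain ⟨r, hr, hball⟩ := Metric.isOpen_iff.1 hopen x ⟨hxV, x.2⟩
    refine ⟨r, hr, fun z hz => ?_⟩
    have hz : |z - cm W x| < r := by
      rw [Metric.mem_ball, Real.dist_eq] at hz
      exact hz
    have hy : (x : ℝ) + (z - cm W x) ∈ V' ∩ W := hball (by
      rw [Metric.mem_ball, Real.dist_eq]; simpa using hz)
    refine ⟨⟨x + (z - cm W x), hy.2⟩, hy.1, ?_⟩
    have hsub : uIcc (x : ℝ) (x + (z - cm W x)) ⊆ W := by
      intro w hw
      refine (hball ?_).2
      rw [Metric.mem_ball, Real.dist_eq]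
      have := abs_sub_left_of_mem_uIcc hw
      refine lt_of_le_of_lt this ?_
      simpa using hz
    have := cm_of_uIcc hW hvol hsub
    show cm W (x + (z - cm W x)) = z
    linarith

/-- Dimension one. -/
theorem dim_one (U : Set (EuclideanSpace ℝ (Fin 1))) (hU : IsOpen U) (hvol : volume U ≤ 2) :
    ∃ f : EuclideanSpace ℝ (Fin 1) → EuclideanSpace ℝ (Fin 1),
      IsEmbedding (fun x : U => f x) ∧ (∀ x, ‖f x‖ ≤ 1) ∧
      ∀ (a b : ℝ) (γ : ℝ → EuclideanSpace ℝ (Fin 1)), ContinuousOn γ (Icc a b) →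
        (∀ t ∈ Icc a b, γ t ∈ U) →
        eVariationOn γ (Icc a b) ≤ eVariationOn (fun t => f (γ t)) (Icc a b) := by
  set I := (OrthonormalBasis.singleton (Fin 1) ℝ).repr with hI
  have hmp : MeasurePreserving I volume volume :=
    (OrthonormalBasis.singleton (Fin 1) ℝ).measurePreserving_repr
  set W : Set ℝ := I ⁻¹' U with hWdef
  have hW : IsOpen W := hU.preimage I.continuous
  have hWvol : volume W ≤ 2 := by
    rw [hWdef, hmp.measure_preimage hU.measurableSet.nullMeasurableSet]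
    exact hvol
  refine ⟨fun x => I (cm W (I.symm x)), ?_, fun x => ?_, ?_⟩
  · have hmem : ∀ u : U, I.symm u ∈ W := fun u => by
      rw [hWdef, mem_preimage, I.apply_symm_apply]; exact u.2
    have h1 : IsEmbedding (fun u : U => (⟨I.symm u, hmem u⟩ : W)) := by
      apply IsEmbedding.of_leftInverse (f := fun w : W => (⟨I w, w.2⟩ : U))
      · intro u
        apply Subtype.ext
        exact I.apply_symm_apply u
      · exact Continuous.subtype_mk (I.continuous.comp continuous_subtype_val) _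
      · exact Continuous.subtype_mk (I.symm.continuous.comp continuous_subtype_val) _
    have h2 := (I.isometry.isEmbedding.comp (cm_embedding hW hWvol)).comp h1
    exact h2
  · show ‖I (cm W (I.symm x))‖ ≤ 1
    exact (I.norm_map (cm W (I.symm x))).le.trans (abs_cm_le hWvol _)
  · intro a b γ hγ hγU
    have key : ∀ s ∈ Icc a b, ∀ t ∈ Icc a b,
        edist (I (cm W (I.symm (γ s)))) (I (cm W (I.symm (γ t)))) = edist (γ s) (γ t) := by
      intro s hs t ht
      refine (I.isometry.edist_eq _ _).trans (Eq.trans ?_ (I.symm.isometry.edist_eq (γ s) (γ t)))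
      have hc : ContinuousOn (fun r => I.symm (γ r)) (uIcc s t) :=
        I.symm.continuous.comp_continuousOn (hγ.mono (ordConnected_Icc.uIcc_subset hs ht))
      have hsub : uIcc (I.symm (γ s)) (I.symm (γ t)) ⊆ W := by
        refine (intermediate_value_uIcc hc).trans ?_
        rintro _ ⟨r, hr, rfl⟩
        rw [hWdef, mem_preimage, I.apply_symm_apply]
        exact hγU r (ordConnected_Icc.uIcc_subset hs ht hr)
      have h3 := cm_of_uIcc hW hWvol hsub
      rw [edist_dist, edist_dist, Real.dist_eq, Real.dist_eq, abs_sub_comm, h3, abs_sub_comm]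
    apply iSup_le
    rintro ⟨n, u, hu, hus⟩
    refine le_trans (le_of_eq ?_) (eVariationOn.sum_le (n := n) hu hus)
    exact Finset.sum_congr rfl fun i _ => (key _ (hus _) _ (hus _)).symm

/-! ### Higher dimensions -/

lemma ball_lower {E : Type*} [NormedAddCommGroup E] [NormedSpace ℝ E] {S : ℝ} (z w : E)
    (hz : √(1 + ‖z‖ ^ 2) ≤ S) (hw : √(1 + ‖w‖ ^ 2) ≤ S) :
    ‖z - w‖ ≤ (S + S ^ 4) *
      ‖(√(1 + ‖z‖ ^ 2))⁻¹ • z - (√(1 + ‖w‖ ^ 2))⁻¹ • w‖ := by
  set s := √(1 + ‖z‖ ^ 2) with hs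
  set t := √(1 + ‖w‖ ^ 2) with ht
  have hs2 : s ^ 2 = 1 + ‖z‖ ^ 2 := Real.sq_sqrt (by positivity)
  have ht2 : t ^ 2 = 1 + ‖w‖ ^ 2 := Real.sq_sqrt (by positivity)
  have hs1 : 1 ≤ s := by rw [hs, Real.one_le_sqrt]; nlinarith [norm_nonneg z]
  have ht1 : 1 ≤ t := by rw [ht, Real.one_le_sqrt]; nlinarith [norm_nonneg w]
  set p := s⁻¹ • z with hp
  set q := t⁻¹ • w with hq
  have hzp : z = s • p := by rw [hp, smul_smul, mul_inv_cancel₀ (by linarith), one_smul]
  have hwq : w = t • q := by rw [hq, smul_smul, mul_inv_cancel₀ (by linarith), one_smul]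
  have hnp : ‖z‖ = s * ‖p‖ := by rw [hzp, norm_smul, Real.norm_of_nonneg (by linarith)]
  have hnq : ‖w‖ = t * ‖q‖ := by rw [hwq, norm_smul, Real.norm_of_nonneg (by linarith)]
  have hp0 := norm_nonneg p
  have hq0 := norm_nonneg q
  have e1 : s ^ 2 * (1 - ‖p‖ ^ 2) = 1 := by rw [hnp] at hs2; nlinarith
  have e2 : t ^ 2 * (1 - ‖q‖ ^ 2) = 1 := by rw [hnq] at ht2; nlinarith
  have hp1 : ‖p‖ ≤ 1 := by
    by_contra hc
    push Not at hc
    have h1 : 0 < s ^ 2 * (‖p‖ ^ 2 - 1) := mul_pos (by positivity) (by nlinarith)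
    linarith
  have hq1 : ‖q‖ ≤ 1 := by
    by_contra hc
    push Not at hc
    have h1 : 0 < t ^ 2 * (‖q‖ ^ 2 - 1) := mul_pos (by positivity) (by nlinarith)
    linarith
  set D := ‖p - q‖ with hD
  have hD0 : 0 ≤ D := norm_nonneg _
  have hpq : |‖p‖ - ‖q‖| ≤ D := abs_norm_sub_norm_le p q
  have e3 : (s - t) * (s + t) = s ^ 2 * t ^ 2 * ((‖p‖ - ‖q‖) * (‖p‖ + ‖q‖)) := by
    have : s ^ 2 - t ^ 2 = s ^ 2 * (t ^ 2 * (1 - ‖q‖ ^ 2)) - t ^ 2 * (s ^ 2 * (1 - ‖p‖ ^ 2)) := by
      rw [e1, e2]; ring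
    nlinarith
  have e4 : |s - t| * (s + t) ≤ S ^ 4 * (D * 2) := by
    have h1 : |s - t| * (s + t) = s ^ 2 * t ^ 2 * (|‖p‖ - ‖q‖| * (‖p‖ + ‖q‖)) := by
      have g1 : |s - t| * (s + t) = |(s - t) * (s + t)| := by
        rw [abs_mul, abs_of_nonneg (show 0 ≤ s + t by linarith)]
      have g2 : s ^ 2 * t ^ 2 * (|‖p‖ - ‖q‖| * (‖p‖ + ‖q‖)) =
          |s ^ 2 * t ^ 2 * ((‖p‖ - ‖q‖) * (‖p‖ + ‖q‖))| := by
        rw [abs_mul, abs_of_nonneg (show 0 ≤ s ^ 2 * t ^ 2 by positivity), abs_mul,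
          abs_of_nonneg (show 0 ≤ ‖p‖ + ‖q‖ by linarith)]
      rw [g1, g2, e3]
    rw [h1]
    have h2 : s ^ 2 * t ^ 2 ≤ S ^ 4 := by
      have h3 : s ^ 2 ≤ S ^ 2 := by nlinarith
      have h4 : t ^ 2 ≤ S ^ 2 := by nlinarith
      calc s ^ 2 * t ^ 2 ≤ S ^ 2 * S ^ 2 := by gcongr
        _ = S ^ 4 := by ring
    have h5 : |‖p‖ - ‖q‖| * (‖p‖ + ‖q‖) ≤ D * 2 := by
      apply mul_le_mul hpq (by linarith) (by linarith) hD0
    exact mul_le_mul h2 h5 (by positivity) (by positivity)
  have e5 : |s - t| ≤ S ^ 4 * D := by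
    have : |s - t| * 2 ≤ |s - t| * (s + t) := mul_le_mul_of_nonneg_left (by linarith) (abs_nonneg _)
    linarith
  have e6 : z - w = s • (p - q) + (s - t) • q := by
    conv_lhs => rw [hzp, hwq]
    rw [smul_sub, sub_smul]
    abel
  calc ‖z - w‖ = ‖s • (p - q) + (s - t) • q‖ := by rw [e6]
    _ ≤ ‖s • (p - q)‖ + ‖(s - t) • q‖ := norm_add_le _ _
    _ = s * D + |s - t| * ‖q‖ := by
        rw [norm_smul, norm_smul, Real.norm_of_nonneg (by linarith : (0 : ℝ) ≤ s), Real.norm_eq_abs]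
    _ ≤ S * D + S ^ 4 * D * 1 := by
        apply add_le_add (mul_le_mul_of_nonneg_right hz hD0)
        exact mul_le_mul e5 hq1 hq0 (by positivity)
    _ = (S + S ^ 4) * D := by ring

/-- In dimension at least two there is an embedding of the whole space into the unit ball which
maps all nonconstant curves of finite length to curves of infinite length. -/
theorem dim_ge_two (n : ℕ) (hn : 2 ≤ n) :
    ∃ f : EuclideanSpace ℝ (Fin n) → EuclideanSpace ℝ (Fin n),
      IsEmbedding f ∧ (∀ x, ‖f x‖ < 1) ∧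
      ∀ (a b : ℝ) (γ : ℝ → EuclideanSpace ℝ (Fin n)), ContinuousOn γ (Icc a b) →
        eVariationOn γ (Icc a b) ≠ ∞ → (∃ s ∈ Icc a b, ∃ t ∈ Icc a b, γ s ≠ γ t) →
        eVariationOn (fun t => f (γ t)) (Icc a b) = ∞ := by
  obtain ⟨m, rfl⟩ : ∃ m, n = m + 2 := ⟨n - 2, by omega⟩
  set e := EuclideanSpace.equiv (Fin (m + 2)) ℝ with he
  set β : EuclideanSpace ℝ (Fin (m + 2)) → EuclideanSpace ℝ (Fin (m + 2)) :=
    fun x => (√(1 + ‖x‖ ^ 2))⁻¹ • x with hβ
  have hβe : IsEmbedding β := by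
    have h1 : IsEmbedding (fun x : EuclideanSpace ℝ (Fin (m + 2)) =>
      ((Homeomorph.unitBall x : Metric.ball (0 : EuclideanSpace ℝ (Fin (m + 2))) 1) :
        EuclideanSpace ℝ (Fin (m + 2)))) :=
      IsEmbedding.subtypeVal.comp Homeomorph.unitBall.isEmbedding
    have h2 : (fun x : EuclideanSpace ℝ (Fin (m + 2)) =>
      ((Homeomorph.unitBall x : Metric.ball (0 : EuclideanSpace ℝ (Fin (m + 2))) 1) :
        EuclideanSpace ℝ (Fin (m + 2)))) = β := by
      funext x
      rw [Homeomorph.unitBall_apply_coe, OpenPartialHomeomorph.univUnitBall_apply]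
    rwa [h2] at h1
  have hβn : ∀ x, ‖β x‖ < 1 := fun x => by
    have h := (Homeomorph.unitBall x : Metric.ball (0 : EuclideanSpace ℝ (Fin (m + 2))) 1).2
    rw [Homeomorph.unitBall_apply_coe, OpenPartialHomeomorph.univUnitBall_apply,
      mem_ball_zero_iff] at h
    exact h
  have hF : IsEmbedding (F m) := IsEmbedding.of_leftInverse (G_F (m := m)) G_cont F_cont
  refine ⟨fun x => β (e.symm (F m (e x))), ?_, fun x => hβn _, ?_⟩
  · exact hβe.comp (e.symm.toHomeomorph.isEmbedding.comp (hF.comp e.toHomeomorph.isEmbedding))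
  · intro a b γ hγ hrect hne
    -- the curve in the sup norm
    have h1 : eVariationOn (fun t => e (γ t)) (Icc a b) ≠ ∞ := by
      have hL := e.toContinuousLinearMap.lipschitz.lipschitzOnWith (s := univ)
      have := hL.comp_eVariationOn_le (f := e) (g := γ) (s := Icc a b) (mapsTo_univ _ _)
      exact ne_top_of_le_ne_top (ENNReal.mul_ne_top ENNReal.coe_ne_top hrect) this
    have h2 : eVariationOn (fun t => F m (e (γ t))) (Icc a b) = ∞ := by
      apply var_top a b (fun t => e (γ t)) (e.continuous.comp_continuousOn hγ) h1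
      obtain ⟨s, hs, t, ht, hst⟩ := hne
      exact ⟨s, hs, t, ht, fun h => hst (e.injective h)⟩
    set ζ : ℝ → EuclideanSpace ℝ (Fin (m + 2)) := fun t => e.symm (F m (e (γ t))) with hζ
    have hζc : ContinuousOn ζ (Icc a b) :=
      e.symm.continuous.comp_continuousOn (F_cont.comp_continuousOn (e.continuous.comp_continuousOn hγ))
    have h3 : eVariationOn ζ (Icc a b) = ∞ := by
      by_contra hc
      have hL := e.toContinuousLinearMap.lipschitz.lipschitzOnWith (s := univ)
      have := hL.comp_eVariationOn_le (f := e) (g := ζ) (s := Icc a b) (mapsTo_univ _ _)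
      have h4 := ne_top_of_le_ne_top (ENNReal.mul_ne_top ENNReal.coe_ne_top hc) this
      apply h4
      rw [← h2]
      congr 1
    -- a bound for the image
    obtain ⟨R, hR⟩ : ∃ R : ℝ, ∀ t ∈ Icc a b, ‖ζ t‖ ≤ R :=
      isCompact_Icc.exists_bound_of_continuousOn hζc
    set S := √(1 + R ^ 2) with hS
    have hlow : ∀ s ∈ Icc a b, ∀ t ∈ Icc a b,
        edist (ζ s) (ζ t) ≤ ENNReal.ofReal (S + S ^ 4) * edist (β (ζ s)) (β (ζ t)) := by
      intro s hs t ht
      have hb : ∀ r ∈ Icc a b, √(1 + ‖ζ r‖ ^ 2) ≤ S := fun r hr => by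
        apply Real.sqrt_le_sqrt
        have := hR r hr
        have h0 := norm_nonneg (ζ r)
        nlinarith
      have h5 := ball_lower (ζ s) (ζ t) (hb s hs) (hb t ht)
      have hS0 : 0 ≤ S := Real.sqrt_nonneg _
      rw [edist_dist, edist_dist, ← ENNReal.ofReal_mul (by positivity), dist_eq_norm, dist_eq_norm]
      exact ENNReal.ofReal_le_ofReal h5
    by_contra hc
    have h6 : eVariationOn ζ (Icc a b) ≤
        ENNReal.ofReal (S + S ^ 4) * eVariationOn (fun t => β (ζ t)) (Icc a b) := by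
      apply iSup_le
      rintro ⟨k, u, hu, hus⟩
      calc ∑ i ∈ Finset.range k, edist (ζ (u (i + 1))) (ζ (u i))
          ≤ ∑ i ∈ Finset.range k, ENNReal.ofReal (S + S ^ 4) *
            edist (β (ζ (u (i + 1)))) (β (ζ (u i))) :=
            Finset.sum_le_sum fun i _ => hlow _ (hus _) _ (hus _)
        _ = ENNReal.ofReal (S + S ^ 4) * ∑ i ∈ Finset.range k,
            edist (β (ζ (u (i + 1)))) (β (ζ (u i))) := by rw [Finset.mul_sum]
        _ ≤ _ := by
            gcongr
            exact eVariationOn.sum_le (f := fun t => β (ζ t)) hu hus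
    exact (ne_top_of_le_ne_top (ENNReal.mul_ne_top ENNReal.ofReal_ne_top hc) h6) h3

end Pool.Agent.K3h28.Sponge
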